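import Pool.Agent.V11128.CXL.T

/-!
# Functional form of the moments of ζ near the critical line

Let `δ(T) → 0`, `δ(T) log T → ∞`, `0 < β ≤ 4` real and `r > 0`. For `t ∈ [0, T]` consider the function
`x ↦ ζ(1/2 + δ + i(t + xδ))` on the window `[-r, r]`, as an element of the space `C([-r, r], ℂ)` with the
uniform norm. For every continuous functional `Φ` on this space with `Φ(λf) = |λ|^β Φ(f)` for all
complex `λ`,

`(1/T) ∫_0^T Φ(ζ(1/2 + δ + i(t + ·δ))) dt ~ a(β/2) (2δ)^(-β²/4) E Φ(exp G)`,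

where `G` is the Gaussian process `G(x) = -(β/2) log (1 + ix/2) + ∑_{k ≥ 1} ξ_k p(x)^k / √k`,
`p(x) = (ix/2)/(1 + ix/2)`, with independent standard complex normal variables `ξ_k`.

Examples: the moments of the local maxima, `Φ(f) = (max |f|)^β`, and the moments of the local moments,
`Φ(f) = (∫ |f|^q)^(β/q)`, `q > 0`.

Proof. For functionals of finitely many values this is `homog_full` (from the convergence of the
complex ratios under the weight `|ζ|^β`). By the submean inequality for `|ζ|^β` on discs of radius `δ/4`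
the function on the window is bounded by a size `S(t)` and has Lipschitz constant `16 S(t)`, where the mean
of `S^β` is at most a constant times `(2δ)^(-β²/4)` (`St_mean`, `zeta_class`). By Arzela–Ascoli and
homogeneity, `Φ` differs from its discretisation by at most `ε S^β` (`near_all`). The same holds for the limit
process, whose size has all moments (`func_lim`).
-/

set_option autoImplicit false

namespace Pool.Agent.Results.MP_973905_nt.FunctionalMoments

open Filter MeasureTheory Topology ProbabilityTheory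

/-- The coefficient `s (s + 1) ⋯ (s + m - 1) / m!` of `x^m` in `(1 - x)^(-s)`. -/
noncomputable def ds (s : ℝ) (m : ℕ) : ℝ := ∏ i ∈ Finset.range m, (s + i) / ((i : ℝ) + 1)

/-- The arithmetic factor `a(s) = ∏_p (1 - 1/p)^(s²) ∑_m ds(m)² p^(-m)`. -/
noncomputable def ak (s : ℝ) : ℝ :=
  ∏' p : Nat.Primes, ((1 - 1 / (p : ℝ)) ^ (s ^ 2) * ∑' m : ℕ, ds s m ^ 2 * (1 / (p : ℝ)) ^ m)

/-- `ζ(1/2 + δ + i(t + xδ))`. -/
noncomputable def Z (δ t x : ℝ) : ℂ :=
  riemannZeta (1 / 2 + δ + ((t + x * δ : ℝ) : ℂ) * Complex.I)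

/-- The restriction of `g` to the window `[-r, r]` (zero if `g` is not continuous there). -/
noncomputable def win (r : ℝ) (g : ℝ → ℂ) : C(Set.Icc (-r) r, ℂ) :=
  open Classical in if h : Continuous (fun x : Set.Icc (-r) r => g x) then ⟨_, h⟩ else 0

/-- The law of a sequence of independent standard normal vectors of `ℝ²`. -/
noncomputable def law : Measure (ℕ → ℝ × ℝ) :=
  Measure.infinitePi fun _ : ℕ => (gaussianReal 0 1).prod (gaussianReal 0 1)

/-- The standard complex normal variables `(x + iy)/√2`. -/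
noncomputable def xi (k : ℕ) (ω : ℕ → ℝ × ℝ) : ℂ :=
  (((ω k).1 : ℂ) + ((ω k).2 : ℂ) * Complex.I) / (√2 : ℝ)

/-- `p(x) = (ix/2)/(1 + ix/2)`. -/
noncomputable def p (x : ℝ) : ℂ := (Complex.I * (x : ℂ) / 2) / (1 + Complex.I * (x : ℂ) / 2)

/-- The terms of the random series. -/
noncomputable def term (ω : ℕ → ℝ × ℝ) (x : ℝ) (k : ℕ) : ℂ :=
  xi k ω * (p x ^ (k + 1) / (√((k : ℝ) + 1) : ℝ))

/-- The process `G(x) = -(β/2) log (1 + ix/2) + ∑_{k ≥ 1} ξ_k p(x)^k / √k`. -/
noncomputable def G (β : ℝ) (ω : ℕ → ℝ × ℝ) (x : ℝ) : ℂ :=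
  -(β / 2 : ℂ) * Complex.log (1 + Complex.I * (x : ℂ) / 2) + ∑' k, term ω x k

/-- The path `exp G`. -/
noncomputable def E (β : ℝ) (ω : ℕ → ℝ × ℝ) (x : ℝ) : ℂ := Complex.exp (G β ω x)

/-- Let `δ(T) → 0`, `δ(T) log T → ∞`, `0 < β ≤ 4` and `r > 0`. Then `a(β/2) > 0`, almost surely the
series of `G` converges on `[-r, r]` and `exp G` is continuous there, for large `T` and all `t` the
function `x ↦ ζ(1/2 + δ + i(t + xδ))` is continuous on `[-r, r]`, and:

(1) for all continuous `Φ : C([-r, r], ℂ) → ℝ` with `Φ(λf) = |λ|^β Φ(f)`, `Φ(exp G)` is integrable and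
`(2δ)^(β²/4) (1/T) ∫_0^T Φ(ζ(1/2 + δ + i(t + ·δ))) dt → a(β/2) E Φ(exp G)`;

(2) `(2δ)^(β²/4) (1/T) ∫_0^T max_{|x| ≤ r} |ζ(1/2 + δ + i(t + xδ))|^β dt → a(β/2) E max |exp G|^β`;

(3) for all `q > 0`: `(2δ)^(β²/4) (1/T) ∫_0^T (∫_{-r}^r |ζ(1/2 + δ + i(t + xδ))|^q dx)^(β/q) dt` tends to
`a(β/2) E (∫_{-r}^r |exp G|^q)^(β/q)`. -/
theorem result (δ : ℝ → ℝ) (hδ : Tendsto δ atTop (𝓝 0))
    (hδL : Tendsto (fun T : ℝ => δ T * Real.log T) atTop atTop) (β : ℝ) (hβ : 0 < β) (hβ4 : β ≤ 4)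
    (r : ℝ) (hr : 0 < r) :
    0 < ak (β / 2) ∧
    (∀ᵐ ω ∂law, (∀ x ∈ Set.Icc (-r) r, Summable (term ω x)) ∧ ∀ x, win r (E β ω) x = E β ω x) ∧
    (∀ᶠ T : ℝ in atTop, ∀ t x, win r (Z (δ T) t) x = Z (δ T) t x) ∧
    (∀ Φ : C(Set.Icc (-r) r, ℂ) → ℝ, Continuous Φ →
      (∀ (l : ℂ) (f : C(Set.Icc (-r) r, ℂ)), Φ (l • f) = ‖l‖ ^ β * Φ f) →
      Integrable (fun ω => Φ (win r (E β ω))) law ∧
      Tendsto (fun T : ℝ => (2 * δ T) ^ ((β / 2) ^ 2) / T * ∫ t in Set.Icc 0 T, Φ (win r (Z (δ T) t))) atTop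
        (𝓝 (ak (β / 2) * ∫ ω, Φ (win r (E β ω)) ∂law))) ∧
    Tendsto (fun T : ℝ => (2 * δ T) ^ ((β / 2) ^ 2) / T * ∫ t in Set.Icc 0 T, ‖win r (Z (δ T) t)‖ ^ β) atTop
      (𝓝 (ak (β / 2) * ∫ ω, ‖win r (E β ω)‖ ^ β ∂law)) ∧
    ∀ q : ℝ, 0 < q →
      Tendsto (fun T : ℝ => (2 * δ T) ^ ((β / 2) ^ 2) / T *
        ∫ t in Set.Icc 0 T, (∫ x in Set.Icc (-r) r, ‖Z (δ T) t x‖ ^ q) ^ (β / q)) atTop
        (𝓝 (ak (β / 2) * ∫ ω, (∫ x in Set.Icc (-r) r, ‖E β ω x‖ ^ q) ^ (β / q) ∂law)) := by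
  have main : ∀ Φ : C(Set.Icc (-r) r, ℂ) → ℝ, Continuous Φ →
      (∀ (l : ℂ) (f : C(Set.Icc (-r) r, ℂ)), Φ (l • f) = ‖l‖ ^ β * Φ f) →
      Integrable (fun ω => Φ (win r (E β ω))) law ∧
      Tendsto (fun T : ℝ => (2 * δ T) ^ ((β / 2) ^ 2) / T * ∫ t in Set.Icc 0 T, Φ (win r (Z (δ T) t))) atTop
        (𝓝 (ak (β / 2) * ∫ ω, Φ (win r (E β ω)) ∂law)) := fun Φ hc hh =>
    Pool.Agent.V11128.CXL.func_moment hδ hδL hβ hβ4 hr hc hh
  have hproc : ∀ᵐ ω ∂law, (∀ x ∈ Set.Icc (-r) r, Summable (term ω x)) ∧ ∀ x, win r (E β ω) x = E β ω x := by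
    filter_upwards [Pool.Agent.V11128.CXL.gd_ae r] with ω hω
    obtain ⟨k1, k2⟩ := Pool.Agent.V11128.CXL.path_class hβ hr hω
    refine ⟨fun x hx => Pool.Agent.V11128.CXL.ser_summable hω hx, fun x => ?_⟩
    have hcont : Continuous (fun x : Set.Icc (-r) r => E β ω x) := by
      have hS := (Pool.Agent.V11128.CXL.Sw_pos β r ω).le
      have hl : LipschitzWith (Real.toNNReal (16 * Pool.Agent.V11128.CXL.Sw β r ω)) (fun x : Set.Icc (-r) r => E β ω x) := by
        refine LipschitzWith.of_dist_le_mul fun x y => ?_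
        rw [dist_eq_norm, Subtype.dist_eq, Real.dist_eq, Real.coe_toNNReal _ (by positivity)]
        exact k2 x x.2 y y.2
      exact hl.continuous
    exact Pool.Agent.V11128.CXL.win_apply hcont x
  have hzeta : ∀ᶠ T : ℝ in atTop, ∀ t x, win r (Z (δ T) t) x = Z (δ T) t x := by
    filter_upwards [hδ.eventually (gt_mem_nhds (show (0:ℝ) < 1 / 4 by norm_num))] with T hT t x
    have hcont : Continuous (fun x : Set.Icc (-r) r => Z (δ T) t x) :=
      (Pool.Agent.V11128.CXL.zc_cont2 hT).comp (continuous_const.prodMk continuous_subtype_val)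
    exact Pool.Agent.V11128.CXL.win_apply hcont x
  refine ⟨Pool.Agent.H306R2.aF_pos (by positivity), hproc, hzeta, main, ?_, fun q hq => ?_⟩
  · refine (main (fun f => ‖f‖ ^ β) (continuous_norm.rpow_const fun _ => Or.inr hβ.le) fun l f => ?_).2
    rw [norm_smul, Real.mul_rpow (norm_nonneg _) (norm_nonneg _)]
  · have hle : -r ≤ r := by linarith
    obtain ⟨Φ, hΦ⟩ : ∃ Φ : C(Set.Icc (-r) r, ℂ) → ℝ, Φ = fun f =>
        (∫ x in Set.Icc (-r) r, ‖f (Set.projIcc (-r) r hle x)‖ ^ q) ^ (β / q) := ⟨_, rfl⟩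
    have hK : Continuous (fun f : C(Set.Icc (-r) r, ℂ) =>
        ∫ x in Set.Icc (-r) r, ‖f (Set.projIcc (-r) r hle x)‖ ^ q) := by
      rw [continuous_iff_continuousAt]
      intro f₀
      refine continuousAt_of_dominated (bound := fun _ => (‖f₀‖ + 1) ^ q) (Eventually.of_forall fun f => ?_) ?_
        (integrableOn_const (by simp)) (Eventually.of_forall fun x => ?_)
      · have h1 : Continuous fun x => ‖f (Set.projIcc (-r) r hle x)‖ ^ q :=
          ((f.continuous.comp continuous_projIcc).norm).rpow_const fun _ => Or.inr hq.le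
        exact h1.aestronglyMeasurable
      · filter_upwards [Metric.ball_mem_nhds f₀ one_pos] with f hf
        refine Eventually.of_forall fun x => ?_
        rw [Real.norm_of_nonneg (by positivity)]
        refine Real.rpow_le_rpow (norm_nonneg _) ((f.norm_coe_le_norm _).trans ?_) hq.le
        have h1 := norm_le_norm_add_norm_sub' f f₀
        rw [Metric.mem_ball, dist_eq_norm] at hf
        linarith
      · have h1 : Continuous fun f : C(Set.Icc (-r) r, ℂ) => ‖f (Set.projIcc (-r) r hle x)‖ ^ q :=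
          ((ContinuousEvalConst.continuous_eval_const (F := C(Set.Icc (-r) r, ℂ)) _).norm).rpow_const fun _ => Or.inr hq.le
        exact h1.continuousAt
    have hΦc : Continuous Φ := by
      rw [hΦ]
      exact hK.rpow_const fun _ => Or.inr (by positivity)
    have hΦh : ∀ (l : ℂ) (f : C(Set.Icc (-r) r, ℂ)), Φ (l • f) = ‖l‖ ^ β * Φ f := by
      intro l f
      rw [hΦ]
      simp only
      have e1 : ∀ x : ℝ, ‖(l • f) (Set.projIcc (-r) r hle x)‖ ^ q = ‖l‖ ^ q * ‖f (Set.projIcc (-r) r hle x)‖ ^ q := by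
        intro x
        rw [ContinuousMap.smul_apply, smul_eq_mul, norm_mul, Real.mul_rpow (norm_nonneg _) (norm_nonneg _)]
      simp_rw [e1]
      rw [integral_const_mul, Real.mul_rpow (by positivity) (integral_nonneg fun x => by positivity),
        ← Real.rpow_mul (norm_nonneg _), mul_div_cancel₀ _ hq.ne']
    have hval : ∀ g : ℝ → ℂ, (∀ x, win r g x = g x) → Φ (win r g) = (∫ x in Set.Icc (-r) r, ‖g x‖ ^ q) ^ (β / q) := by
      intro g hg
      rw [hΦ]
      simp only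
      congr 1
      refine setIntegral_congr_fun measurableSet_Icc fun x hx => ?_
      show ‖win r g (Set.projIcc (-r) r hle x)‖ ^ q = ‖g x‖ ^ q
      rw [hg, Set.projIcc_of_mem hle hx]
    have h1 := (main Φ hΦc hΦh).2
    have e1 : ∫ ω, Φ (win r (E β ω)) ∂law = ∫ ω, (∫ x in Set.Icc (-r) r, ‖E β ω x‖ ^ q) ^ (β / q) ∂law := by
      refine integral_congr_ae ?_
      filter_upwards [hproc] with ω hω
      exact hval _ hω.2
    rw [e1] at h1
    refine h1.congr' ?_
    filter_upwards [hzeta] with T hT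
    congr 1
    refine integral_congr_ae (Eventually.of_forall fun t => ?_)
    exact hval _ (hT t)

end Pool.Agent.Results.MP_973905_nt.FunctionalMoments
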