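import Pool.Agent.V11128.CXL.U
import Pool.Agent.V1178.LV.Abs
import Pool.Agent.Results.MP_112ba8_nt.WeightedTwistedLaw

/-!
# Large values of zeta near the critical line come in whole windows

Let `δ(T) → 0` and `δ(T) log T → ∞` and put `L = log (1/(2δ))`. The moments of order `2κ ≤ 4` on the line
`Re s = 1/2 + δ` are `T (2δ)^(-κ²)` up to a constant. Here the sets of large values are described:

1. for every `κ > 0` the set of `t ∈ [0, T]` with `|ζ(1/2 + δ + it)| > (2δ)^(-κ)` has measure at least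
   `T exp (-κ² L - o(√L))`;
2. for `κ ≤ 2` it has measure at most `C T exp (-κ² L)`;
3. for `κ < 2` the lower bound holds for the set of those `t` for which the inequality holds at all points
   `t + x δ`, `|x| ≤ r`;
4. for `κ ≤ 2` all but the proportion `η` of the moment of order `2κ` comes from those `t` for which
   `exp (-M) |ζ(1/2 + δ + it)| ≤ |ζ(1/2 + δ + i(t + xδ))| ≤ exp M |ζ(1/2 + δ + it)|` for all `|x| ≤ r`,
   `M` depending on `κ`, `r` and `η` only.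

Parts 1 and 2 and the general lower bound `Pool.Agent.V1178.LV.lower` are by helper78, who had parts 3 and 4
with exceptional sets of `x` of small measure. The step to all `x` uses the functional limit theorem
`Pool.Agent.V11128.CXL.func_moment` (`bad_small`).
-/

set_option autoImplicit false

namespace Pool.Agent.Results.MP_973905_nt.LargeValueWindows

open Filter MeasureTheory Topology ProbabilityTheory
open scoped NNReal

/-- `|ζ(1/2 + δ + it)|`. -/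
noncomputable def Z (δ t : ℝ) : ℝ := ‖riemannZeta (1 / 2 + δ + (t : ℂ) * Complex.I)‖

/-- `L = log (1/(2δ))`. -/
noncomputable def L (δ : ℝ) : ℝ := Real.log (1 / (2 * δ))

/-- The `t ∈ [0, T]` with `|ζ(1/2 + δ + it)| > (2δ)^(-κ)`. -/
def Large (κ δ T : ℝ) : Set ℝ := {t | t ∈ Set.Icc 0 T ∧ (1 / (2 * δ)) ^ κ < Z δ t}

/-- The `t ∈ [0, T]` with `|ζ(1/2 + δ + iu)| > (2δ)^(-κ)` for all `u = t + x δ`, `|x| ≤ r`. -/
def LargeWindow (κ δ T r : ℝ) : Set ℝ :=
  {t | t ∈ Set.Icc 0 T ∧ ∀ x ∈ Set.Icc (-r) r, (1 / (2 * δ)) ^ κ < Z δ (t + x * δ)}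

/-- The `t ∈ [0, T]` for which `|ζ(1/2 + δ + i(t + xδ))|` is not between
`exp (-M) |ζ(1/2 + δ + it)|` and `exp M |ζ(1/2 + δ + it)|` for some `|x| ≤ r`. -/
def Unstable (δ T r M : ℝ) : Set ℝ :=
  {t | t ∈ Set.Icc 0 T ∧ ¬ ∀ x ∈ Set.Icc (-r) r,
    Real.exp (-M) * Z δ t ≤ Z δ (t + x * δ) ∧ Z δ (t + x * δ) ≤ Real.exp M * Z δ t}

lemma Z_nonneg (δ t : ℝ) : 0 ≤ Z δ t := norm_nonneg _

lemma Z_meas (δ : ℝ) : Measurable (Z δ) := by
  unfold Z
  exact (Pool.Agent.V11128.CXL.zeta_meas.comp (by fun_prop)).norm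

lemma Z_cont {δ : ℝ} (h : δ < 1 / 4) : Continuous (Z δ) := Pool.Agent.V11128.CXL.zs_cont h

lemma Z_int {δ : ℝ} (h : δ < 1 / 4) {β : ℝ} (hβ : 0 ≤ β) (T : ℝ) :
    IntegrableOn (fun t => Z δ t ^ β) (Set.Icc 0 T) :=
  ((Z_cont h).rpow_const fun _ => Or.inr hβ).continuousOn.integrableOn_compact isCompact_Icc

lemma L_tendsto {δ : ℝ → ℝ} (hδ : Tendsto δ atTop (𝓝 0)) (hδ0 : ∀ᶠ T in atTop, 0 < δ T) :
    Tendsto (fun T => L (δ T)) atTop atTop := by
  have h1 : Tendsto (fun T => 2 * δ T) atTop (𝓝[>] 0) := by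
    refine tendsto_nhdsWithin_iff.2 ⟨by simpa using hδ.const_mul 2, ?_⟩
    filter_upwards [hδ0] with T hT
    exact Set.mem_Ioi.2 (by positivity)
  have h2 : Tendsto (fun T => 1 / (2 * δ T)) atTop atTop := by
    simp_rw [one_div]
    exact tendsto_inv_nhdsGT_zero.comp h1
  exact Real.tendsto_log_atTop.comp h2

lemma pow_L {δ : ℝ} (h : 0 < δ) (κ : ℝ) : (1 / (2 * δ)) ^ κ = Real.exp (κ * L δ) := by
  rw [Real.rpow_def_of_pos (by positivity), L, mul_comm]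

lemma pow_L' {δ : ℝ} (h : 0 < δ) (κ : ℝ) : (2 * δ) ^ κ = Real.exp (-(κ * L δ)) := by
  rw [Real.rpow_def_of_pos (by positivity), L, one_div, Real.log_inv]
  congr 1
  ring

/-- the arithmetic factor -/
noncomputable abbrev af (κ : ℝ) : ℝ := Pool.Agent.H306R2.aF κ

lemma ak_pos {κ : ℝ} (hκ : 0 < κ) : 0 < af κ := Pool.Agent.H306R2.aF_pos hκ

/-- the mass -/
lemma mass {δ : ℝ → ℝ} (hδ : Tendsto δ atTop (𝓝 0)) (hδ0 : ∀ᶠ T in atTop, 0 < δ T)
    (hδL : Tendsto (fun T : ℝ => δ T * Real.log T) atTop atTop) {κ : ℝ} (hκ : 0 < κ) (hκ2 : κ ≤ 2) :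
    Tendsto (fun T => Real.exp (-(κ ^ 2 * L (δ T))) / T * ∫ t in Set.Icc 0 T, Z (δ T) t ^ (2 * κ)) atTop
      (𝓝 (af κ)) := by
  have h1 := Pool.Agent.V11128.CXL.mass_zs hδ hδL (β := 2 * κ) (by positivity) (by linarith)
  rw [show 2 * κ / 2 = κ by ring] at h1
  refine h1.congr' ?_
  filter_upwards [hδ0] with T hT
  rw [pow_L' hT]
  rfl

lemma Z_eq (δ t : ℝ) : Pool.Agent.Results.MP_112ba8_nt.WeightedTwistedLaw.Z δ t = Z δ t := by
  unfold Pool.Agent.Results.MP_112ba8_nt.WeightedTwistedLaw.Z Z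
  push_cast
  rfl

lemma twist_one (t : ℝ) : Pool.Agent.Results.MP_112ba8_nt.WeightedTwistedLaw.twist 1 1 t = 1 := by
  simp [Pool.Agent.Results.MP_112ba8_nt.WeightedTwistedLaw.twist]

lemma factor_one (s : ℝ) :
    Pool.Agent.Results.MP_112ba8_nt.WeightedTwistedLaw.twistFactor s 1 1 = 1 := by
  simp [Pool.Agent.Results.MP_112ba8_nt.WeightedTwistedLaw.twistFactor]

/-- the law off the exceptional sets -/
lemma law_off {δ : ℝ → ℝ} (hδ : Tendsto δ atTop (𝓝 0)) (hδ0 : ∀ᶠ T in atTop, 0 < δ T)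
    (hδL : Tendsto (fun T : ℝ => δ T * Real.log T) atTop atTop) :
    ∃ E : ℝ → Set ℝ, (∀ T, MeasurableSet (E T)) ∧ ∀ κ : ℝ, 0 < κ →
      ∃ a : ℝ, 0 < a ∧ ∀ F : BoundedContinuousFunction ℝ ℝ,
        Tendsto (fun T => Real.exp (-(κ ^ 2 * L (δ T))) / T * ∫ t in Set.Icc 0 T \ E T,
          Z (δ T) t ^ (2 * κ) * F ((Real.log (Z (δ T) t) - κ * L (δ T)) / Real.sqrt (L (δ T) / 2)))
          atTop (𝓝 (a * ∫ x, F x ∂(gaussianReal 0 1))) := by
  obtain ⟨E, hE, -, h⟩ := (Pool.Agent.Results.MP_112ba8_nt.WeightedTwistedLaw.result δ hδ hδL).1 0 le_rfl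
  refine ⟨E, fun T => (hE T).1, fun κ hκ => ?_⟩
  obtain ⟨ha, h⟩ := h κ hκ (by rcases le_total κ 2 with h | h
                               · exact Or.inl h
                               · exact Or.inr (by linarith))
  refine ⟨_, ha, fun F => ?_⟩
  have h1 := h 1 1 one_ne_zero one_ne_zero (Nat.coprime_one_left 1) F
  simp only [twist_one, factor_one, one_mul, mul_one] at h1
  have h2 := (Complex.continuous_re.tendsto _).comp h1
  rw [Complex.ofReal_re] at h2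
  refine h2.congr' ?_
  filter_upwards [hδ0] with T hT
  rw [Function.comp_apply, integral_complex_ofReal, ← Complex.ofReal_mul, Complex.ofReal_re, pow_L' hT]
  simp only [Pool.Agent.Results.MP_112ba8_nt.WeightedTwistedLaw.N, Z_eq]
  rfl

/-- the law on the complete interval -/
lemma law_full {δ : ℝ → ℝ} (hδ : Tendsto δ atTop (𝓝 0)) (hδ0 : ∀ᶠ T in atTop, 0 < δ T)
    (hδL : Tendsto (fun T : ℝ => δ T * Real.log T) atTop atTop) {κ : ℝ} (hκ : 0 < κ) (hκ2 : κ < 2)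
    (F : BoundedContinuousFunction ℝ ℝ) :
    Tendsto (fun T => Real.exp (-(κ ^ 2 * L (δ T))) / T * ∫ t in Set.Icc 0 T,
          Z (δ T) t ^ (2 * κ) * F ((Real.log (Z (δ T) t) - κ * L (δ T)) / Real.sqrt (L (δ T) / 2)))
          atTop (𝓝 (af κ * ∫ x, F x ∂(gaussianReal 0 1))) := by
  have h1 := (Pool.Agent.Results.MP_112ba8_nt.WeightedTwistedLaw.result δ hδ hδL).2 κ hκ hκ2 1 1
    one_ne_zero one_ne_zero (Nat.coprime_one_left 1) F
  simp only [twist_one, factor_one, one_mul, mul_one] at h1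
  have h2 := (Complex.continuous_re.tendsto _).comp h1
  rw [Complex.ofReal_re] at h2
  have h3 := mass hδ hδ0 hδL hκ hκ2.le
  refine (h3.mul h2).congr' ?_
  filter_upwards [eventually_gt_atTop (0:ℝ), h3.eventually (eventually_gt_nhds (ak_pos hκ))]
    with T hT h4
  rw [Function.comp_apply, intervalIntegral.integral_ofReal, ← Complex.ofReal_div, Complex.ofReal_re,
    intervalIntegral.integral_of_le hT.le, intervalIntegral.integral_of_le hT.le,
    ← integral_Icc_eq_integral_Ioc, ← integral_Icc_eq_integral_Ioc]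
  simp only [Pool.Agent.Results.MP_112ba8_nt.WeightedTwistedLaw.N, Z_eq]
  have h5 : (∫ t in Set.Icc 0 T, Z (δ T) t ^ (2 * κ)) ≠ 0 := by
    intro h0
    rw [h0, mul_zero] at h4
    exact lt_irrefl _ h4
  rw [mul_assoc, mul_div_cancel₀ _ h5]
  rfl

lemma exp_lt {a x : ℝ} (ha : 0 ≤ a) (hx : 0 ≤ x) (h : a < Real.log x) : Real.exp a < x := by
  rcases hx.eq_or_lt with h0 | h0
  · rw [← h0, Real.log_zero] at h
    exact absurd h (not_lt.2 ha)
  · exact (Real.lt_log_iff_exp_lt h0).1 h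

lemma toReal_mono {T : ℝ} {S S' : Set ℝ} (h : S ⊆ S') (h' : S' ⊆ Set.Icc 0 T) :
    (volume S).toReal ≤ (volume S').toReal := by
  refine ENNReal.toReal_mono ?_ (measure_mono h)
  refine ne_top_of_le_ne_top ?_ (measure_mono h')
  rw [Real.volume_Icc]
  exact ENNReal.ofReal_ne_top

section

variable {δ : ℝ → ℝ} (hδ : Tendsto δ atTop (𝓝 0)) (hδ0 : ∀ᶠ T in atTop, 0 < δ T)
    (hδL : Tendsto (fun T : ℝ => δ T * Real.log T) atTop atTop)

include hδ

lemma lt_q : ∀ᶠ T in atTop, δ T < 1 / 4 := hδ.eventually (eventually_lt_nhds (by norm_num))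

include hδ0 hδL

lemma part1 {κ ε : ℝ} (hκ : 0 < κ) (hε : 0 < ε) :
    ∀ᶠ T in atTop, Real.exp (-(κ ^ 2 * L (δ T)) - ε * Real.sqrt (L (δ T))) ≤
      (volume (Large κ (δ T) T)).toReal / T := by
  obtain ⟨E, hE, h⟩ := law_off hδ hδ0 hδL
  obtain ⟨a, ha, h⟩ := h κ hκ
  have hL := L_tendsto hδ hδ0
  obtain ⟨η, hη, hlow⟩ := Pool.Agent.V1178.LV.lower hκ ha (L := fun T => L (δ T)) hL
    (Z := fun T => Z (δ T)) (fun T t => Z_nonneg _ _) (fun T => Z_meas _)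
    (D := fun T => Set.Icc 0 T \ E T) (fun T => measurableSet_Icc.diff (hE T))
    (fun T => Set.sdiff_subset)
    (by filter_upwards [lt_q hδ] with T hT
        exact (Z_int hT (by positivity) T).mono_set Set.sdiff_subset) h hε
  have h1 := hlow 0 (fun _ => ∅) (fun _ => MeasurableSet.empty)
    (Eventually.of_forall fun T => by simp [hη.le])
  filter_upwards [h1, hδ0, hL.eventually (eventually_ge_atTop 0), eventually_gt_atTop (0:ℝ)]
    with T h2 hT hL0 hT0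
  refine h2.trans (div_le_div_of_nonneg_right (toReal_mono (T := T) ?_ ?_) hT0.le)
  · rintro t ⟨ht, -, ht2⟩
    refine ⟨ht.1, ?_⟩
    rw [pow_L hT]
    exact exp_lt (mul_nonneg hκ.le hL0) (Z_nonneg _ _) (by linarith)
  · exact fun t ht => ht.1

lemma part2 {κ : ℝ} (hκ : 0 < κ) (hκ2 : κ ≤ 2) :
    ∃ C : ℝ, ∀ᶠ T in atTop, (volume (Large κ (δ T) T)).toReal / T ≤
      C * Real.exp (-(κ ^ 2 * L (δ T))) := by
  have h1 := mass hδ hδ0 hδL hκ hκ2
  refine ⟨af κ + 1, ?_⟩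
  filter_upwards [h1.eventually (eventually_le_nhds (lt_add_one _)), hδ0, lt_q hδ,
    eventually_gt_atTop (0:ℝ)] with T h2 hT hT1 hT0
  have h3 : Real.exp (2 * κ ^ 2 * L (δ T)) * (volume (Large κ (δ T) T)).toReal ≤
      ∫ t in Set.Icc 0 T, Z (δ T) t ^ (2 * κ) := by
    have h4 := mul_meas_ge_le_integral_of_nonneg (μ := volume.restrict (Set.Icc 0 T))
      (f := fun t => Z (δ T) t ^ (2 * κ))
      (Eventually.of_forall fun t => Real.rpow_nonneg (Z_nonneg _ _) _)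
      (Z_int hT1 (by positivity) T) (Real.exp (2 * κ ^ 2 * L (δ T)))
    refine le_trans ?_ h4
    refine mul_le_mul_of_nonneg_left ?_ (Real.exp_pos _).le
    rw [Measure.real, Measure.restrict_apply' measurableSet_Icc]
    refine toReal_mono ?_ Set.inter_subset_right
    rintro t ⟨ht, ht2⟩
    refine ⟨?_, ht⟩
    rw [Set.mem_ofPred_eq, show 2 * κ ^ 2 * L (δ T) = (κ * L (δ T)) * (2 * κ) by ring, Real.exp_mul]
    rw [pow_L hT] at ht2
    exact Real.rpow_le_rpow (Real.exp_pos _).le ht2.le (by positivity)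
  have h5 := le_trans (mul_le_mul_of_nonneg_left h3
    (show 0 ≤ Real.exp (-(κ ^ 2 * L (δ T))) / T by positivity)) h2
  have h6 : (volume (Large κ (δ T) T)).toReal / T = Real.exp (-(κ ^ 2 * L (δ T))) *
      (Real.exp (-(κ ^ 2 * L (δ T))) / T * (Real.exp (2 * κ ^ 2 * L (δ T)) *
        (volume (Large κ (δ T) T)).toReal)) := by
    have h7 : Real.exp (-(κ ^ 2 * L (δ T))) * Real.exp (-(κ ^ 2 * L (δ T))) *
        Real.exp (2 * κ ^ 2 * L (δ T)) = 1 := by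
      rw [← Real.exp_add, ← Real.exp_add, show -(κ ^ 2 * L (δ T)) + -(κ ^ 2 * L (δ T)) +
        2 * κ ^ 2 * L (δ T) = 0 by ring, Real.exp_zero]
    calc (volume (Large κ (δ T) T)).toReal / T = (Real.exp (-(κ ^ 2 * L (δ T))) *
        Real.exp (-(κ ^ 2 * L (δ T))) * Real.exp (2 * κ ^ 2 * L (δ T))) *
          ((volume (Large κ (δ T) T)).toReal / T) := by rw [h7, one_mul]
      _ = _ := by ring
  rw [h6, mul_comm _ (Real.exp (-(κ ^ 2 * L (δ T))))]
  exact mul_le_mul_of_nonneg_left h5 (Real.exp_pos _).le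

lemma bad {κ : ℝ} (hκ : 0 < κ) (hκ2 : κ ≤ 2) {r η : ℝ} (hr : 0 < r) (hη : 0 < η) :
    ∃ M : ℝ, 0 < M ∧ ∀ᶠ T in atTop, Real.exp (-(κ ^ 2 * L (δ T))) / T *
      ∫ t in Set.Icc 0 T ∩ Pool.Agent.V11128.CXL.Bad (δ T) r M, Z (δ T) t ^ (2 * κ) ≤ η := by
  obtain ⟨M, hM, h⟩ := Pool.Agent.V11128.CXL.bad_small hδ hδL (β := 2 * κ) (by positivity) (by linarith) hr hη
  refine ⟨M, hM, ?_⟩
  rw [show 2 * κ / 2 = κ by ring] at h
  filter_upwards [h M le_rfl, hδ0] with T h1 hT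
  rw [pow_L' hT] at h1
  exact h1

lemma part3 {κ : ℝ} (hκ : 0 < κ) (hκ2 : κ < 2) {r ε : ℝ} (hr : 0 < r) (hε : 0 < ε) :
    ∀ᶠ T in atTop, Real.exp (-(κ ^ 2 * L (δ T)) - ε * Real.sqrt (L (δ T))) ≤
      (volume (LargeWindow κ (δ T) T r)).toReal / T := by
  classical
  have hL := L_tendsto hδ hδ0
  obtain ⟨η0, hη0, hlow⟩ := Pool.Agent.V1178.LV.lower hκ (ak_pos hκ) (L := fun T => L (δ T)) hL
    (Z := fun T => Z (δ T)) (fun T t => Z_nonneg _ _) (fun T => Z_meas _)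
    (D := fun T => Set.Icc 0 T) (fun T => measurableSet_Icc) (fun T => subset_rfl)
    (by filter_upwards [lt_q hδ] with T hT
        exact Z_int hT (by positivity) T) (law_full hδ hδ0 hδL hκ hκ2) hε
  obtain ⟨M, hM, hbad⟩ := bad hδ hδ0 hδL hκ hκ2.le hr hη0
  have h1 := hlow M (fun T => if δ T < 1 / 4 then Pool.Agent.V11128.CXL.Bad (δ T) r M else ∅)
    (fun T => by
      split_ifs with h
      · exact Pool.Agent.V11128.CXL.Bad_meas h r M
      · exact MeasurableSet.empty) (by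
      filter_upwards [hbad, lt_q hδ] with T h2 h3
      rw [if_pos h3]
      exact h2)
  filter_upwards [h1, hδ0, hL.eventually (eventually_ge_atTop 0), eventually_gt_atTop (0:ℝ), lt_q hδ]
    with T h2 hT hL0 hT0 hT1
  rw [if_pos hT1] at h2
  have hkL : 0 ≤ κ * L (δ T) := mul_nonneg hκ.le hL0
  refine h2.trans (div_le_div_of_nonneg_right (toReal_mono (T := T) ?_ ?_) hT0.le)
  · rintro t ⟨ht, htB, ht2⟩
    have hgood : ∀ x ∈ Set.Icc (-r) r, Real.exp (-M) * Z (δ T) t ≤ Z (δ T) (t + x * δ T) ∧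
        Z (δ T) (t + x * δ T) ≤ Real.exp M * Z (δ T) t := by
      by_contra hcon
      exact htB hcon
    refine ⟨ht, fun x hx => ?_⟩
    rw [pow_L hT]
    have h3 : Real.exp (κ * L (δ T) + M) < Z (δ T) t := exp_lt (by linarith) (Z_nonneg _ _) ht2
    refine lt_of_lt_of_le ?_ (hgood x hx).1
    calc Real.exp (κ * L (δ T)) = Real.exp (-M) * Real.exp (κ * L (δ T) + M) := by
          rw [← Real.exp_add]
          ring_nf
      _ < Real.exp (-M) * Z (δ T) t := mul_lt_mul_of_pos_left h3 (Real.exp_pos _)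
  · exact fun t ht => ht.1

lemma part4 {κ : ℝ} (hκ : 0 < κ) (hκ2 : κ ≤ 2) {r η : ℝ} (hr : 0 < r) (hη : 0 < η) :
    ∃ M : ℝ, 0 < M ∧ ∀ᶠ T in atTop, ∫ t in Unstable (δ T) T r M, Z (δ T) t ^ (2 * κ) ≤
      η * ∫ t in Set.Icc 0 T, Z (δ T) t ^ (2 * κ) := by
  have hak := ak_pos hκ
  obtain ⟨M, hM, hbad⟩ := bad hδ hδ0 hδL hκ hκ2 hr (show 0 < η * (af κ / 2) by positivity)
  refine ⟨M, hM, ?_⟩
  filter_upwards [hbad, (mass hδ hδ0 hδL hκ hκ2).eventually
    (eventually_ge_nhds (half_lt_self hak)), eventually_gt_atTop (0:ℝ)]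
    with T h1 h2 hT0
  have hcp : 0 < Real.exp (-(κ ^ 2 * L (δ T))) / T := by positivity
  refine le_of_mul_le_mul_left ?_ hcp
  have h3 : Unstable (δ T) T r M = Set.Icc 0 T ∩ Pool.Agent.V11128.CXL.Bad (δ T) r M := rfl
  rw [h3]
  refine h1.trans ?_
  have h7 := mul_le_mul_of_nonneg_left h2 hη.le
  linarith

end

/-- Let `δ(T) → 0` and `δ(T) log T → ∞`, `L = log (1/(2δ))`. (1) For all `κ, ε > 0`, for all large `T`, the set
of `t ∈ [0, T]` with `|ζ(1/2 + δ + it)| > (2δ)^(-κ)` has measure at least `T exp (-κ² L - ε √L)`; (2) for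
`κ ≤ 2` it has measure at most `C T exp (-κ² L)`. (3) For `κ < 2` and `r > 0` the bound of (1) holds for the
set of those `t` for which `|ζ(1/2 + δ + i(t + xδ))| > (2δ)^(-κ)` for all `|x| ≤ r`. (4) For `κ ≤ 2`, `r > 0`
and `η > 0` there is `M > 0` such that for all large `T` the `t ∈ [0, T]` for which
`exp (-M) |ζ(1/2 + δ + it)| ≤ |ζ(1/2 + δ + i(t + xδ))| ≤ exp M |ζ(1/2 + δ + it)|` fails for some `|x| ≤ r`
contribute at most the part `η` of the moment of order `2κ`. -/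
theorem result (δ : ℝ → ℝ) (hδ : Tendsto δ atTop (𝓝 0))
    (hδL : Tendsto (fun T : ℝ => δ T * Real.log T) atTop atTop) :
    (∀ κ ε : ℝ, 0 < κ → 0 < ε → ∀ᶠ T in atTop,
      Real.exp (-(κ ^ 2 * L (δ T)) - ε * Real.sqrt (L (δ T))) ≤
        (volume (Large κ (δ T) T)).toReal / T) ∧
    (∀ κ : ℝ, 0 < κ → κ ≤ 2 → ∃ C : ℝ, ∀ᶠ T in atTop,
      (volume (Large κ (δ T) T)).toReal / T ≤ C * Real.exp (-(κ ^ 2 * L (δ T)))) ∧
    (∀ κ : ℝ, 0 < κ → κ < 2 → ∀ r ε : ℝ, 0 < r → 0 < ε →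
      ∀ᶠ T in atTop, Real.exp (-(κ ^ 2 * L (δ T)) - ε * Real.sqrt (L (δ T))) ≤
        (volume (LargeWindow κ (δ T) T r)).toReal / T) ∧
    ∀ κ : ℝ, 0 < κ → κ ≤ 2 → ∀ r η : ℝ, 0 < r → 0 < η → ∃ M : ℝ, 0 < M ∧
      ∀ᶠ T in atTop, ∫ t in Unstable (δ T) T r M, Z (δ T) t ^ (2 * κ) ≤
        η * ∫ t in Set.Icc 0 T, Z (δ T) t ^ (2 * κ) := by
  have hδ0 : ∀ᶠ T in atTop, 0 < δ T := by
    filter_upwards [hδL.eventually (eventually_gt_atTop 0), eventually_gt_atTop (1 : ℝ)] with T h1 h2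
    exact (pos_iff_pos_of_mul_pos h1).2 (Real.log_pos h2)
  exact ⟨fun κ ε hκ hε => part1 hδ hδ0 hδL hκ hε, fun κ hκ hκ2 => part2 hδ hδ0 hδL hκ hκ2,
    fun κ hκ hκ2 r ε hr hε => part3 hδ hδ0 hδL hκ hκ2 hr hε,
    fun κ hκ hκ2 r η hr hη => part4 hδ hδ0 hδL hκ hκ2 hr hη⟩

end Pool.Agent.Results.MP_973905_nt.LargeValueWindows
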