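import Mathlib
import Pool.Agent.V1126.MZ.Pkg

set_option autoImplicit false

/-!
# Moments of the maxima of zeta over short windows of all scales

For a window length `1 / log T ≤ l ≤ 1` consider the maxima of `|ζ(1/2 + i(t + u))|^(2k)` over the
`u ∈ [0, l]` with `t + u` in a set `E` of almost full proportion. For real `k` with `k² > 2` their
integral over `[T, T+H]` has the exact order `H l (log T)^(k² + 1)`, for all scales `l`, with constants
that do not depend on `l`; the upper bound holds for all real `k`. So the integral grows linearly with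
the length of the windows, from the scale `1 / log T`, where it has the order `H (log T)^(k²)` of the
moment itself, up to `l = 1`: the large values come in isolated peaks of width `1 / log T`.

The case `l = 1` is `MP_91b7ff_nt.LocalMaxima`, whose set and method are used.
-/

namespace Pool.Agent.Results.MP_973905_nt.MesoscopicMaxima

open Filter MeasureTheory Finset
open scoped ENNReal
open Pool.Agent.V11104.MM Pool.Agent.V1126.MZ

/-- **Theorem.** For all `K ≥ 0`, `θ > 0` and `ε > 0` there are a measurable set `E` of real numbers and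
constants `c, C > 0` such that `ζ(1/2 + it) ≠ 0` for `t` in `E`; for every `α < 1`, all large `T` and all
`T / (log T)^α ≤ H ≤ T` the set `E` contains at least `(1 - ε) H` of the points of `[T, T+H]`; and the
following holds. Call `M` a majorant (for `k`, `T`, `H`, `l`) if it is nonnegative and integrable on
`[T, T+H]` and `|ζ(1/2 + i(t + u))|^(2k) ≤ M(t)` for all `t` in `[T, T+H]` and `u` in `[0, l]` with `t + u`
in `E`. (1) For all large `T`, all `T^θ ≤ H ≤ T`, all `1 / log T ≤ l ≤ 1` and all real `|k| ≤ K` there is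
a majorant with integral at most `C H l (log T)^(k² + 1)`. (2) For every `α < 1`, all large `T`, all
`T / (log T)^α ≤ H ≤ T`, all `1 / log T ≤ l ≤ 1` and all real `|k| ≤ K` with `k² > 2` every majorant has
integral at least `c (k² - 2) H l (log T)^(k² + 1)`. -/
theorem result (K θ ε : ℝ) (hK : 0 ≤ K) (hθ : 0 < θ) (hε : 0 < ε) :
    ∃ (E : Set ℝ) (c C : ℝ), MeasurableSet E ∧ 0 < c ∧ 0 < C ∧
    (∀ t ∈ E, riemannZeta (1 / 2 + t * Complex.I) ≠ 0) ∧
    (∀ α : ℝ, 0 ≤ α → α < 1 → ∀ᶠ T : ℝ in atTop, ∀ H : ℝ, T / Real.log T ^ α ≤ H → H ≤ T →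
      (1 - ε) * H ≤ volume.real (Set.Icc T (T + H) ∩ E)) ∧
    (∀ᶠ T : ℝ in atTop, ∀ H : ℝ, T ^ θ ≤ H → H ≤ T → ∀ l : ℝ, 1 / Real.log T ≤ l → l ≤ 1 →
      ∀ k : ℝ, |k| ≤ K →
      ∃ M : ℝ → ℝ, (∀ t, 0 ≤ M t) ∧ IntegrableOn M (Set.Icc T (T + H)) ∧
        (∀ t ∈ Set.Icc T (T + H), ∀ u ∈ Set.Icc (0:ℝ) l, t + u ∈ E →
          ‖riemannZeta (1 / 2 + ((t + u : ℝ) : ℂ) * Complex.I)‖ ^ (2 * k) ≤ M t) ∧
        ∫ t in Set.Icc T (T + H), M t ≤ C * H * l * Real.log T ^ (k ^ 2 + 1)) ∧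
    ∀ α : ℝ, 0 ≤ α → α < 1 → ∀ᶠ T : ℝ in atTop, ∀ H : ℝ, T / Real.log T ^ α ≤ H → H ≤ T →
      ∀ l : ℝ, 1 / Real.log T ≤ l → l ≤ 1 →
      ∀ k : ℝ, |k| ≤ K → 2 < k ^ 2 → ∀ M : ℝ → ℝ, (∀ t, 0 ≤ M t) → IntegrableOn M (Set.Icc T (T + H)) →
        (∀ t ∈ Set.Icc T (T + H), ∀ u ∈ Set.Icc (0:ℝ) l, t + u ∈ E →
          ‖riemannZeta (1 / 2 + ((t + u : ℝ) : ℂ) * Complex.I)‖ ^ (2 * k) ≤ M t) →
        c * (k ^ 2 - 2) * H * l * Real.log T ^ (k ^ 2 + 1) ≤ ∫ t in Set.Icc T (T + H), M t := by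
  obtain ⟨E, c₀, C₀, mE, hc₀, hC₀, hne, hprop, -, hlow, hup, hmj⟩ := pkgl K θ ε 2 hK hθ hε
  have kB : ∀ k : ℝ, |k| ≤ K → |k| ≤ (2:ℕ) * K + K := by
    intro k hk
    push_cast
    linarith
  have zkk : ∀ k s : ℝ, s ∈ E → zk E k s = ENNReal.ofReal (‖riemannZeta (1 / 2 + s * Complex.I)‖ ^ (2 * k)) := by
    intro k s hs
    unfold zk
    rw [Set.indicator_of_mem hs]
  refine ⟨E, c₀ ^ 2 / (4 * C₀), 2 * C₀, mE, by positivity, by positivity, hne, hprop, ?_, ?_⟩
  · filter_upwards [hmj, Real.tendsto_log_atTop.eventually_ge_atTop 1, eventually_gt_atTop (1:ℝ)] with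
      T hT hL1 hT1 H hH1 hH2 l hl0 hl1 k hk
    have hT0 : 0 < T := by linarith
    set L := Real.log T with hLd
    have hL : 0 < L := by linarith
    have hl : 0 < l := lt_of_lt_of_le (by positivity) hl0
    have hH1' : T ^ (min θ (1 / 2)) ≤ H := (Real.rpow_le_rpow_of_exponent_le hT1.le (min_le_left _ _)).trans hH1
    have hH0 : 0 < H := lt_of_lt_of_le (Real.rpow_pos_of_pos hT0 _) hH1
    obtain ⟨F, hF, f1, f2⟩ := hT H hH1' hH2 k (kB k hk)
    have hη0 : 0 ≤ 1 / L := by positivity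
    have e1 : (1:ℝ) + k ^ 2 = k ^ 2 + 1 := by ring
    rw [e1] at f2
    set X : ℝ := C₀ * H * L ^ (k ^ 2 + 1) with hX
    have hX0 : 0 ≤ X := by positivity
    have hX2 : 2 * C₀ * H * l * L ^ (k ^ 2 + 1) = 2 * l * X := by rw [hX]; ring
    rw [hX2]
    have hFtop : ∫⁻ s in Set.Icc T (T + H + 2), F s ≠ ⊤ := (f2.trans_lt ENNReal.ofReal_lt_top).ne
    set R : ℝ → ℝ≥0∞ := fun t => ∫⁻ v in Set.Icc (0:ℝ) (l + 1 / L), F (t + v) with hR
    have hRm : Measurable R := (meas2 hF).lintegral_prod_right'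
    have hRint : ∫⁻ t in Set.Icc T (T + H), R t ≤ ENNReal.ofReal (2 * l * X) := by
      refine (dbl hF (by linarith) le_rfl (show T + H + (l + 1 / L) ≤ T + H + 2 by linarith)).trans ?_
      rw [ENNReal.ofReal_mul (by positivity)]
      refine mul_le_mul' (ENNReal.ofReal_le_ofReal (by linarith)) f2
    have hRfin : ∫⁻ t in Set.Icc T (T + H), R t ≠ ⊤ := (hRint.trans_lt ENNReal.ofReal_lt_top).ne
    have hRt : ∀ t ∈ Set.Icc T (T + H), R t ≠ ⊤ := by
      intro t ht
      refine (lt_of_le_of_lt ?_ (lt_top_iff_ne_top.mpr hFtop)).ne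
      have h1 : R t = ∫⁻ v in Set.Icc (0:ℝ) (l + 1 / L), F (v + t) := by
        simp only [hR]
        refine lintegral_congr fun v => ?_
        rw [add_comm]
      rw [h1]
      exact tr F (by linarith [ht.1]) (by linarith [ht.2])
    refine ⟨fun t => (R t).toReal, fun t => ENNReal.toReal_nonneg,
      integrable_toReal_of_lintegral_ne_top hRm.aemeasurable hRfin, ?_, ?_⟩
    · intro t ht u hu hs
      have h1 := f1 (t + u) hs (by linarith [ht.1, hu.1]) (by linarith [ht.2, hu.2])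
      rw [zkk k _ hs] at h1
      have h2 : ∫⁻ v in Set.Icc 0 (1 / L), F (t + u + v) ≤ R t := by
        have h3 : ∫⁻ v in Set.Icc 0 (1 / L), F (t + u + v) =
            ∫⁻ v in Set.Icc 0 (1 / L), (fun w => F (t + w)) (v + u) := by
          refine lintegral_congr fun v => ?_
          congr 1
          ring
        rw [h3]
        exact tr (fun w => F (t + w)) (by linarith [hu.1]) (by linarith [hu.2])
      exact (ENNReal.ofReal_le_iff_le_toReal (hRt t ht)).mp (h1.trans h2)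
    · have h1 : ∫ t in Set.Icc T (T + H), (R t).toReal = (∫⁻ t in Set.Icc T (T + H), R t).toReal :=
        integral_toReal hRm.aemeasurable (ae_lt_top hRm hRfin)
      rw [h1]
      exact ENNReal.toReal_le_of_le_ofReal (by positivity) hRint
  · intro α h0 h1
    filter_upwards [hlow α h0 h1, hup, Real.tendsto_log_atTop.eventually_ge_atTop 1, eventually_gt_atTop (1:ℝ)] with
      T a1 a2 hL1 hT1 H hH1 hH2 l hl0 hl1 k hk hk2 M hM0 hMi hM
    have hT0 : 0 < T := by linarith
    set L := Real.log T with hLd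
    have hL : 0 < L := by linarith
    have hl : 0 < l := lt_of_lt_of_le (by positivity) hl0
    obtain ⟨hTθ, b1⟩ := a1 H hH1 hH2
    have hH0 : 0 < H := lt_of_lt_of_le (Real.rpow_pos_of_pos hT0 _) hTθ
    have hk4 : |k / 2| ≤ K := by
      rw [abs_div, abs_of_pos (by norm_num : (0:ℝ) < 2)]
      have := abs_nonneg k
      linarith
    have b2 := b1 k (kB k hk)
    have b3 := a2 H hTθ hH2 l hl hl1 1 (by norm_num) (k / 2) hk4
    set x : ℝ := ∫ t in Set.Icc T (T + H), M t with hx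
    have hx0 : 0 ≤ x := integral_nonneg hM0
    have hlx : ∫⁻ t in Set.Icc T (T + H), ENNReal.ofReal (M t) = ENNReal.ofReal x :=
      (ofReal_integral_eq_lintegral_ofReal hMi (Filter.Eventually.of_forall hM0)).symm
    -- Cauchy's inequality
    have s1 : ENNReal.ofReal (l * (c₀ * L ^ (k ^ 2) * H)) ≤ ∫⁻ t in Set.Icc T (T + H),
        ENNReal.ofReal (M t) ^ (1 / 2 : ℝ) * ∫⁻ u in Set.Icc (0:ℝ) l, zk E (k / 2) (t + u) := by
      have h3 : ENNReal.ofReal (l * (c₀ * L ^ (k ^ 2) * H)) ≤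
          ENNReal.ofReal l * ∫⁻ s in Set.Icc (T + 1) (T + H), zk E k s := by
        rw [ENNReal.ofReal_mul hl.le]
        exact mul_le_mul_right b2 _
      refine (h3.trans (avgl (zk_meas mE _) T H hl1)).trans ?_
      refine setLIntegral_mono' measurableSet_Icc fun t ht => ?_
      have hl := lintegral_const_mul (μ := volume.restrict (Set.Icc (0:ℝ) l)) (ENNReal.ofReal (M t) ^ (1 / 2 : ℝ))
        (f := fun u => zk E (k / 2) (t + u)) ((zk_meas mE _).comp (measurable_const_add t))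
      rw [← hl]
      refine setLIntegral_mono' measurableSet_Icc fun u hu => ?_
      by_cases hs : t + u ∈ E
      · have h2 : zk E (k / 2) (t + u) = zk E k (t + u) ^ (1 / 2 : ℝ) :=
          zk_rpow (E := E) (a := k) (r := 2) (by norm_num) (t + u)
        have h5 : zk E k (t + u) ≤ ENNReal.ofReal (M t) := by
          rw [zkk k _ hs]
          exact ENNReal.ofReal_le_ofReal (hM t ht u hu hs)
        show zk E k (t + u) ≤ ENNReal.ofReal (M t) ^ (1 / 2 : ℝ) * zk E (k / 2) (t + u)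
        rw [h2]
        calc zk E k (t + u) = zk E k (t + u) ^ (1 / 2 : ℝ) * zk E k (t + u) ^ (1 / 2 : ℝ) := by
              rw [← ENNReal.rpow_add_of_nonneg _ _ (by norm_num) (by norm_num)]
              norm_num
          _ ≤ _ := by gcongr
      · have h2 : zk E k (t + u) = 0 := by
          unfold zk
          exact Set.indicator_of_notMem hs _
        show zk E k (t + u) ≤ _
        rw [h2]
        exact zero_le
    have hMm : AEMeasurable (fun t => ENNReal.ofReal (M t) ^ (1 / 2 : ℝ)) (volume.restrict (Set.Icc T (T + H))) :=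
      (ENNReal.measurable_ofReal.comp_aemeasurable hMi.aemeasurable).pow_const _
    have s2 := ENNReal.lintegral_mul_le_Lp_mul_Lq (volume.restrict (Set.Icc T (T + H)))
      Real.HolderConjugate.two_two hMm (Glt_meas mE l (k / 2)).aemeasurable
    simp only [Pi.mul_apply] at s2
    have e1 : ∀ t, (ENNReal.ofReal (M t) ^ (1 / 2 : ℝ)) ^ (2:ℝ) = ENNReal.ofReal (M t) := by
      intro t
      rw [← ENNReal.rpow_mul]
      norm_num
    simp_rw [e1] at s2
    rw [hlx] at s2
    have e2 : ∫⁻ t in Set.Icc T (T + H), (∫⁻ u in Set.Icc (0:ℝ) l, zk E (k / 2) (t + u)) ^ (2:ℝ) ≤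
        ENNReal.ofReal (C₀ * H * l * L ^ (((1 + 1 : ℕ) : ℝ) * (k / 2) ^ 2) *
          (Il (1 / L) (((1 + 1 : ℕ) : ℝ) * (k / 2) ^ 2) l) ^ 1) := by
      refine le_trans (le_of_eq ?_) b3
      refine lintegral_congr fun t => ?_
      rw [← ENNReal.rpow_natCast]
      norm_num
    set ρ : ℝ := k ^ 2 / 2 with hρ
    have hρ1 : 1 < ρ := by rw [hρ]; linarith
    have e3 : ((1 + 1 : ℕ) : ℝ) * (k / 2) ^ 2 = ρ := by rw [hρ]; push_cast; ring
    rw [e3, pow_one] at e2
    have hI := Il_pos (δ := 1 / L) (ρ := ρ) (l := l) (by positivity) hl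
    have hIq := Il_gt (δ := 1 / L) (ρ := ρ) (l := l) (by positivity) hl hρ1
    rw [one_div_one_div] at hIq
    set Z : ℝ := C₀ * H * l * L ^ ρ * (2 / (ρ - 1) * L ^ (ρ - 1)) with hZ
    have hρ0 : 0 < ρ - 1 := by linarith
    have hZ0 : 0 < Z := by positivity
    have e4 : ∫⁻ t in Set.Icc T (T + H), (∫⁻ u in Set.Icc (0:ℝ) l, zk E (k / 2) (t + u)) ^ (2:ℝ) ≤
        ENNReal.ofReal Z := by
      refine e2.trans (ENNReal.ofReal_le_ofReal ?_)
      rw [hZ]
      gcongr
    set Y : ℝ := l * (c₀ * L ^ (k ^ 2) * H) with hY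
    have hY0 : 0 < Y := by positivity
    have s3 : ENNReal.ofReal Y ≤ ENNReal.ofReal x ^ (1 / 2 : ℝ) * ENNReal.ofReal Z ^ (1 / 2 : ℝ) := by
      refine (s1.trans s2).trans ?_
      gcongr
    have s4 : ENNReal.ofReal (Y ^ 2) ≤ ENNReal.ofReal (x * Z) := by
      have h2 := pow_le_pow_left' s3 2
      rw [mul_pow, ← ENNReal.rpow_natCast (ENNReal.ofReal x ^ (1 / 2 : ℝ)), ← ENNReal.rpow_natCast
        (ENNReal.ofReal Z ^ (1 / 2 : ℝ)), ← ENNReal.rpow_mul, ← ENNReal.rpow_mul, ← ENNReal.ofReal_pow hY0.le] at h2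
      norm_num at h2
      rw [ENNReal.ofReal_mul hx0]
      exact h2
    have s5 : Y ^ 2 ≤ x * Z := (ENNReal.ofReal_le_ofReal_iff (by positivity)).mp s4
    refine le_of_mul_le_mul_right (le_trans (le_of_eq ?_) s5) hZ0
    have e5 : (L ^ (k ^ 2)) ^ 2 = L ^ (k ^ 2 + 1) * (L ^ ρ * L ^ (ρ - 1)) := by
      rw [← Real.rpow_natCast, ← Real.rpow_mul hL.le, ← Real.rpow_add hL, ← Real.rpow_add hL]
      congr 1
      rw [hρ]
      push_cast
      ring
    have e6 : ρ - 1 = (k ^ 2 - 2) / 2 := by rw [hρ]; ring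
    rw [hY, mul_pow, mul_pow, mul_pow, e5, hZ]
    have hβ0 : k ^ 2 - 2 ≠ 0 := by linarith
    rw [e6]
    field_simp
    ring

end Pool.Agent.Results.MP_973905_nt.MesoscopicMaxima
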