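import Pool.Agent.V1167.PP.Main

set_option autoImplicit false

/-!
MP_973905_nt. The phases of the primes with respect to the weights of the moments of all orders.

Let `δ(T) → 0`, `δ(T) log T → ∞` and `c ≥ 0`. Off a set of measure `o(δ^(4+4c) T)` where
`|ζ(1/2 + δ + it)| > δ^(-2-c)`, the moments of every order `2k`, `k ≤ 2` or `k ≥ 2 + 2c`, are asymptotic
to `a(k) (2δ)^(-k²) T` and, with respect to the weight `|ζ(1/2 + δ + it)|^(2k)`, the family of the
phases `p^(it)` of all the primes converges in law to a family of independent points `e(θ_p)`, `θ_p`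
having on `[0, 1]` the density proportional to `|1 - e(θ) / √p|^(-2k)`, the `2k`-th power of the Euler
factor, and is asymptotically independent of `log |ζ|`, which is asymptotically normal.
-/

open Filter MeasureTheory Topology

namespace Pool.Agent.Results.MP_973905_nt.PrimePhases

/-- The arithmetic factor `a(k)` of the problem. -/
noncomputable def ak (k : ℝ) : ℝ :=
  ∏' p : Nat.Primes, ((1 - 1 / (p : ℝ)) ^ (k ^ 2) *
    ∑' m : ℕ, (Real.Gamma (k + m) / (Real.Gamma k * (m.factorial : ℝ))) ^ 2 / (p : ℝ) ^ m)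

/-- `|ζ(1/2 + δ + it)|`. -/
noncomputable def Z (δ t : ℝ) : ℝ := ‖riemannZeta (((1 / 2 + δ : ℝ) : ℂ) + t * Complex.I)‖

/-- `log |ζ|` minus `k log (1/(2δ))`, divided by `√((1/2) log (1/(2δ)))`. -/
noncomputable def N (k δ t : ℝ) : ℝ :=
  (Real.log (Z δ t) - k * Real.log (1 / (2 * δ))) / Real.sqrt (Real.log (1 / (2 * δ)) / 2)

/-- `e(x) = exp(2πix)`. -/
noncomputable def e (x : ℝ) : ℂ := Complex.exp (2 * Real.pi * Complex.I * x)

/-- The `2k`-th power `|1 - e(x) / √p|^(-2k)` of the Euler factor at `p`. -/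
noncomputable def euler (k : ℝ) (p : ℕ) (x : ℝ) : ℝ := ‖1 - e x / (Real.sqrt p : ℂ)‖ ^ (-(2 * k))

/-- The probability measure on `[0, 1]` whose density is proportional to `|1 - e(x) / √p|^(-2k)`. -/
noncomputable def phaseLaw (k : ℝ) (p : ℕ) : Measure ℝ :=
  (volume.restrict (Set.Icc (0:ℝ) 1)).withDensity
    fun x => ENNReal.ofReal (euler k p x / ∫ y in Set.Icc (0:ℝ) 1, euler k p y)

lemma ak_eq {k : ℝ} (hk : 0 < k) : ak k = Pool.Agent.H306R2.aF k := by
  have e1 : ∀ m : ℕ, Real.Gamma (k + m) / (Real.Gamma k * (m.factorial : ℝ)) = Pool.Agent.H306R2.lc k m := by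
    intro m
    have hG : Real.Gamma k ≠ 0 := (Real.Gamma_pos_of_pos hk).ne'
    induction m with
    | zero =>
      unfold Pool.Agent.H306R2.lc
      simp [hG]
    | succ m ih =>
      have h1 : Pool.Agent.H306R2.lc k (m + 1) = Pool.Agent.H306R2.lc k m * ((k + m) / ((m : ℝ) + 1)) := by
        unfold Pool.Agent.H306R2.lc
        rw [Finset.prod_range_succ]
      have hkm : k + (m : ℝ) ≠ 0 := by positivity
      have h2 : Real.Gamma (k + ((m + 1 : ℕ) : ℝ)) = (k + m) * Real.Gamma (k + m) := by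
        rw [← Real.Gamma_add_one hkm]
        congr 1
        push_cast
        ring
      have hf : (m.factorial : ℝ) ≠ 0 := by positivity
      rw [h1, ← ih, h2, Nat.factorial_succ]
      push_cast
      field_simp
  unfold ak Pool.Agent.H306R2.aF
  refine tprod_congr fun p => ?_
  simp_rw [e1, one_div, inv_pow, div_eq_mul_inv]

/-- `∫_A |ζ|^(2k) F(N) G((p^(it))_p) dt`, where `ζ = ζ(1/2 + δ + it)`. -/
noncomputable def W (k : ℝ) (F : BoundedContinuousFunction ℝ ℝ) (G : (Nat.Primes → ℂ) → ℂ) (δ : ℝ)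
    (A : Set ℝ) : ℂ :=
  ∫ t in A, ((Z δ t ^ (2 * k) * F (N k δ t) : ℝ) : ℂ) * G (fun p => ((p : ℕ) : ℂ) ^ ((t:ℂ) * Complex.I))

/-- `a(k) (∫ F dγ) 𝔼 G((e(θ_p))_p)`, where `γ` is the standard normal law and the `θ_p` are
independent with laws `phaseLaw k p`. -/
noncomputable def limitValue (k : ℝ) (F : BoundedContinuousFunction ℝ ℝ) (G : (Nat.Primes → ℂ) → ℂ) : ℂ :=
  ((ak k * ∫ x, F x ∂(ProbabilityTheory.gaussianReal 0 1) : ℝ) : ℂ) *
    ∫ θ, G (fun p => e (θ p)) ∂(Measure.infinitePi fun p : Nat.Primes => phaseLaw k p)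

/-- Let `δ(T) → 0`, `δ(T) log T → ∞` and `c ≥ 0`. There are sets `E(T) ⊆ [0, T]` of measure
`o(δ^(4+4c) T)` on which `|ζ(1/2 + δ + it)| > δ^(-2-c)`, such that for all real `k > 0` with `k ≤ 2` or
`k ≥ 2 + 2c`, all bounded continuous `F : ℝ → ℝ` and all continuous functions `G` of the family
`(p^(it))_p` indexed by all the primes

`(2δ)^(k²) (1/T) ∫_{[0,T] \ E(T)} |ζ|^(2k) F(N) G((p^(it))_p) dt → a(k) (∫ F dγ) 𝔼 G((e(θ_p))_p)`,

where `N = (log |ζ| - k log (1/(2δ))) / √((1/2) log (1/(2δ)))`, `γ` is the standard normal law and the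
`θ_p` are independent with laws `phaseLaw k p`. For `k ≤ 2` the same holds with the integral over the
whole interval `[0, T]`. -/
theorem result (δ : ℝ → ℝ) (hδ : Tendsto δ atTop (𝓝 0))
    (hδL : Tendsto (fun T : ℝ => δ T * Real.log T) atTop atTop) (c : ℝ) (hc : 0 ≤ c) :
    ∃ E : ℝ → Set ℝ,
      (∀ T, MeasurableSet (E T) ∧ E T ⊆ Set.Icc 0 T ∧ ∀ t ∈ E T, (δ T) ^ (-(2 + c)) < Z (δ T) t) ∧
      Tendsto (fun T => (volume (E T)).toReal / (T * (δ T) ^ (4 + 4 * c))) atTop (𝓝 0) ∧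
      ∀ k : ℝ, 0 < k → 0 < ak k ∧
        ∀ F : BoundedContinuousFunction ℝ ℝ, ∀ G : (Nat.Primes → ℂ) → ℂ, Continuous G →
          ((k ≤ 2 ∨ 2 + 2 * c ≤ k) → Tendsto (fun T : ℝ => (((2 * δ T) ^ (k ^ 2) / T : ℝ) : ℂ) *
            W k F G (δ T) (Set.Icc 0 T \ E T)) atTop (𝓝 (limitValue k F G))) ∧
          (k ≤ 2 → Tendsto (fun T : ℝ => (((2 * δ T) ^ (k ^ 2) / T : ℝ) : ℂ) *
            W k F G (δ T) (Set.Icc 0 T)) atTop (𝓝 (limitValue k F G))) := by
  obtain ⟨E, hE, hvol, hm⟩ := Pool.Agent.V1167.PP.prime_phases hδ hδL hc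
  refine ⟨E, fun T => ⟨(hE T).1, (hE T).2.1, fun t ht => (hE T).2.2 t ht⟩, hvol, fun k hk =>
    ⟨?_, fun F G hG => ?_⟩⟩
  · rw [ak_eq hk]; exact Pool.Agent.H306R2.aF_pos hk
  · unfold limitValue
    rw [ak_eq hk]
    exact ⟨fun hcase => (hm k hk hcase).2 F G hG, fun hk2 => Pool.Agent.V1167.PP.full_phases hδ hδL hk hk2 F hG⟩

end Pool.Agent.Results.MP_973905_nt.PrimePhases
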